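import Mathlib
import Pool.Agent.TH53.UG5

/-!
# Uniform growth gap when the action modulo `p` has bounded exponent up to `p`-elements

`G = ⟨S⟩`, `H` is a subgroup of index at most `d`, `Γ = γ_{k+1}(H)` is nilpotent (or `H/[Γ,Γ]` is
not virtually nilpotent).  If for a prime `p` and an integer `e ≥ 1` some power `t ^ (e p ^ j)` of
each `t ∈ H` acts trivially by conjugation on `Γ/Γ^p[Γ,Γ]`, then `G` is virtually nilpotent or
`ρ_S ≥ 1 / (6 e p 2 ^ (k + 1) (2 d - 1))`.
-/

set_option autoImplicit false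

namespace Pool.Agent.Results.MP_d69e80_al.BoundedExponentModP

open Filter Topology
open scoped Pointwise commutatorElement

universe u

/-- The term `γ_{k+1}(G)` of the lower central series (so `k = 1` gives `G'`). -/
abbrev gamma (G : Type*) [Group G] (k : ℕ) : Subgroup G := (⊤ : Subgroup G).lowerCentralSeries k

lemma act_pow {G : Type*} [Group G] (N : Subgroup G) [N.Normal] (t : G) (n : ℕ) (a : N) :
    ((TH53.UG.act N t) ^ n) (Additive.ofMul (Abelianization.of a)) =
      Additive.ofMul (Abelianization.of (MulAut.conjNormal (t ^ n) a)) := by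
  induction n with
  | zero => simp
  | succ n ih =>
    rw [pow_succ', Module.End.mul_apply, ih, TH53.UG.act_of, pow_succ', map_mul]
    rfl

theorem result (k d : ℕ) (hk : 1 ≤ k) (p : ℕ) (hp : p.Prime) (e : ℕ) (he : 1 ≤ e)
    (G : Type u) [Group G] (S : Set G) (hfin : S.Finite)
    (hgen : Subgroup.closure S = ⊤) (H : Subgroup G) (hH0 : H.index ≠ 0) (hHd : H.index ≤ d)
    (hnil : Group.IsNilpotent (gamma H k) ∨
      ¬ Group.IsVirtuallyNilpotent (H ⧸ ⁅gamma H k, gamma H k⁆))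
    (hmod : ∀ t : H, ∃ j : ℕ, ∀ a ∈ gamma H k, ∃ b ∈ gamma H k, ∃ c ∈ ⁅gamma H k, gamma H k⁆,
      t ^ (e * p ^ j) * a * (t ^ (e * p ^ j))⁻¹ = a * b ^ p * c) :
    ∃ ρ : ℝ, Tendsto (fun n : ℕ => Real.log (Nat.card ↥(S ^ n)) / n) atTop (𝓝 ρ) ∧
      (Group.IsVirtuallyNilpotent G ∨
        1 / (6 * e * p * 2 ^ (k + 1) * (2 * d - 1)) ≤ ρ) := by
  have : Fact p.Prime := ⟨hp⟩
  refine ⟨H746UG.rho S, H746UG.tendsto_rho S,
    TH53.UG.gap_modp hk S hfin hgen H hH0 hHd hnil he ?_⟩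
  intro t
  obtain ⟨j, hj⟩ := hmod t
  refine ⟨j, fun b => ?_⟩
  obtain ⟨γ, hγ⟩ := QuotientGroup.mk_surjective (Additive.toMul b)
  have hb : b = Additive.ofMul (Abelianization.of γ) := by
    apply Additive.toMul.injective
    exact hγ.symm
  obtain ⟨δ, hδ, c, hc, hcong⟩ := hj γ γ.2
  have hc' : c ∈ gamma H k := Subgroup.commutator_le_left _ _ hc
  have hc1 : Abelianization.of (⟨c, hc'⟩ : gamma H k) = 1 := by
    rw [← Subgroup.map_subtype_commutator] at hc
    obtain ⟨c0, hc0, hc0e⟩ := hc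
    have h3 : c0 = ⟨c, hc'⟩ := Subtype.ext hc0e
    rw [h3] at hc0
    exact (QuotientGroup.eq_one_iff _).2 hc0
  refine ⟨Additive.ofMul (Abelianization.of (⟨δ, hδ⟩ : gamma H k)), ?_⟩
  rw [hb]
  refine (act_pow (gamma H k) t (e * p ^ j) γ).trans ?_
  have h1 : (MulAut.conjNormal (t ^ (e * p ^ j)) γ : gamma H k) =
      γ * (⟨δ, hδ⟩ : gamma H k) ^ p * ⟨c, hc'⟩ := by
    apply Subtype.ext
    rw [MulAut.conjNormal_apply]
    exact hcong
  have h2 : Abelianization.of (MulAut.conjNormal (t ^ (e * p ^ j)) γ : gamma H k) =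
      Abelianization.of γ * Abelianization.of (⟨δ, hδ⟩ : gamma H k) ^ p := by
    rw [h1, map_mul, map_mul, map_pow, hc1, mul_one]
  have h3 : Additive.ofMul (Abelianization.of γ * Abelianization.of (⟨δ, hδ⟩ : gamma H k) ^ p) =
      Additive.ofMul (Abelianization.of γ) +
        (p : ℤ) • Additive.ofMul (Abelianization.of (⟨δ, hδ⟩ : gamma H k)) := by
    rw [ofMul_mul, ofMul_pow, natCast_zsmul]
  rw [← h3]
  exact congrArg Additive.ofMul h2

end Pool.Agent.Results.MP_d69e80_al.BoundedExponentModP
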