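import Mathlib
import Pool.Agent.TH53.UG6

/-!
# Uniform growth gap when the eigenvalues lie in CM fields or totally real fields

`G = ⟨S⟩`, `H` is a subgroup of index at most `d`, `Γ = γ_{k+1}(H)` is nilpotent (or `H/[Γ,Γ]` is
not virtually nilpotent).  If complex conjugation is, on the eigenvalues of each `t ∈ H` acting on
`ℂ ⊗ Γ^ab`, given by a rational polynomial (for instance if they are all real), then `G` is
virtually nilpotent or `ρ_S ≥ 1 / (2 ^ (k + 3) (2 d - 1))`.
-/

set_option autoImplicit false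

namespace Pool.Agent.Results.MP_d69e80_al.CMEigenvalues

open Filter Topology Polynomial
open scoped Pointwise commutatorElement TensorProduct ComplexConjugate

universe u

/-- The term `γ_{k+1}(G)` of the lower central series (so `k = 1` gives `G'`). -/
abbrev gamma (G : Type*) [Group G] (k : ℕ) : Subgroup G := (⊤ : Subgroup G).lowerCentralSeries k

/-- Conjugation by `t` on the abelianization `N^ab` (written additively) of a normal subgroup `N`,
as an endomorphism of the abelian group `N^ab`. -/
noncomputable def conjAb {G : Type*} [Group G] (N : Subgroup G) [N.Normal] (t : G) :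
    Module.End ℤ (Additive (Abelianization N)) :=
  (MonoidHom.toAdditive
    (Abelianization.map (MulAut.conjNormal t : N ≃* N).toMonoidHom)).toIntLinearMap

theorem result (k d : ℕ) (hk : 1 ≤ k) (G : Type u) [Group G] (S : Set G) (hfin : S.Finite)
    (hgen : Subgroup.closure S = ⊤) (H : Subgroup G) (hH0 : H.index ≠ 0) (hHd : H.index ≤ d)
    (hnil : Group.IsNilpotent (gamma H k) ∨
      ¬ Group.IsVirtuallyNilpotent (H ⧸ ⁅gamma H k, gamma H k⁆))
    (hcm : ∀ t : H, ∃ h : ℚ[X], ∀ z : ℂ,
      Module.End.HasEigenvalue (LinearMap.baseChange ℂ (conjAb (gamma H k) t) :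
        Module.End ℂ (ℂ ⊗[ℤ] Additive (Abelianization (gamma H k)))) z →
      conj z = aeval z h) :
    ∃ ρ : ℝ, Tendsto (fun n : ℕ => Real.log (Nat.card ↥(S ^ n)) / n) atTop (𝓝 ρ) ∧
      (Group.IsVirtuallyNilpotent G ∨ 1 / (2 ^ (k + 3) * (2 * d - 1)) ≤ ρ) :=
  ⟨H746UG.rho S, H746UG.tendsto_rho S, TH53.UG.gap_cm hk S hfin hgen H hH0 hHd hnil hcm⟩

end Pool.Agent.Results.MP_d69e80_al.CMEigenvalues
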