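import Pool.Agent.TH555.FG.Noeth

/-!
# MP_d69e80_al: an absolute growth gap for torsion-by-nilpotent groups, and for nilpotent-by-nilpotent
groups that are not polycyclic

Let `S` be a finite generating set of a group `G` (not assumed symmetric), and let `N` be a normal
subgroup with `G / N` nilpotent, of any class.  If `ρ_S < (log 2) / 3` then `G` is virtually
nilpotent provided that `N` is locally finite (for instance, `G` solvable and `N` torsion), and all
subgroups of `G` are finitely generated provided that `N` is locally Noetherian (for instance, `N`
nilpotent, or locally polycyclic; a solvable group all of whose subgroups are finitely generated is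
polycyclic).

Idea of the proof.  Suppose that no two elements of `S ^ j`, `j ≤ 3`, generate a free semigroup.  Then
all terms `γ_k(G)` of the lower central series are finitely generated.  For `k = 2` this is a
uniform version of the criterion of Bieri, Neumann and Strebel: relations between `s t` and `t s`,
and between `s s t` and `s t s`, for `s, t ∈ S`, allow to push paths in the Cayley graph towards the
origin of `ℤ ^ m`, for all maps `G → ℤ ^ m`.  For the step from `Γ = γ_k(G)` to `γ_{k+1}(G)`, `k ≥ 2`,
paths in the Cayley graph of `Γ` are pushed with the help of elements `g ∈ Γ` that are products of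
`O(n)` elements of `S ∪ S⁻¹` and are equal to `h ^ (n ^ k)` modulo `γ_{k+1}(G)`, for the generators
`h` of `Γ`.  So `N` is finitely generated and the rest is standard.
-/

namespace Pool.Agent.Results.MP_d69e80_al.LocallyNoetherianByNilpotent

open Filter Topology
open scoped Pointwise

universe u

/-- The exponential growth rate `ρ_S = lim (1/n) log |S ^ n|`, where `S ^ n` is the set of all
products of `n` elements of `S` (pointwise power of sets). -/
noncomputable def rho {G : Type*} [Group G] (S : Set G) : ℝ :=
  limUnder atTop (fun n : ℕ => Real.log (Nat.card ↥(S ^ n)) / n)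

/-- Every finite subset of `N` generates a finite subgroup. -/
def LocallyFinite {G : Type*} [Group G] (N : Subgroup G) : Prop :=
  ∀ T : Set G, T.Finite → T ⊆ (N : Set G) → Finite (Subgroup.closure T)

/-- All subgroups of finitely generated subgroups of `N` are finitely generated. -/
def LocallyNoetherian {G : Type*} [Group G] (N : Subgroup G) : Prop :=
  ∀ K : Subgroup G, K ≤ N → K.FG → ∀ R : Subgroup G, R ≤ K → R.FG

/-- Let `S` be a finite generating set of a group `G` and let `N` be a normal subgroup with `G / N`
nilpotent.  The limit `ρ_S` exists.  Either `|S ^ n| ^ 3 ≥ 2 ^ n` for all `n` and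
`ρ_S ≥ (log 2) / 3`, or the following holds: if `N` is locally finite, or if `G` is solvable and `N`
is a torsion group, then `G` is virtually nilpotent; and if `N` is locally Noetherian then all
subgroups of `G` are finitely generated. -/
theorem result {G : Type u} [Group G] (S : Set G) (hfin : S.Finite)
    (hS : Subgroup.closure S = ⊤) (N : Subgroup G) [N.Normal] (hN : Group.IsNilpotent (G ⧸ N)) :
    Tendsto (fun n : ℕ => Real.log (Nat.card ↥(S ^ n)) / n) atTop (𝓝 (rho S)) ∧
    (((∀ n : ℕ, 2 ^ n ≤ Nat.card ↥(S ^ n) ^ 3) ∧ Real.log 2 / 3 ≤ rho S) ∨
      ((LocallyFinite N ∨ (Group.IsSolvable G ∧ ∀ g ∈ N, IsOfFinOrder g) →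
          Group.IsVirtuallyNilpotent G) ∧
        (LocallyNoetherian N → ∀ K : Subgroup G, K.FG))) := by
  refine ⟨Pool.Agent.H746UG.tendsto_rho S, ?_⟩
  by_cases hNF : Pool.Agent.H785R3.GrowthA.NoFree S 3
  · right
    refine ⟨?_, ?_⟩
    · intro h
      refine Pool.Agent.TH555.FG.virtNilp_of_noFree hfin hS hNF N hN ?_
      rcases h with h1 | ⟨h1, h2⟩
      · exact h1
      · have := h1
        exact Pool.Agent.H785R3.GrowthA.LF_of_solvable_torsion h2
    · intro h K
      exact Pool.Agent.TH555.FG.noeth_of_noFree hfin hS hNF N hN h K
  · left
    have h1 := Pool.Agent.TH555.FG.two_pow_of_pair hfin hNF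
    exact ⟨h1, Pool.Agent.H746UG.rho_ge S h1⟩

end Pool.Agent.Results.MP_d69e80_al.LocallyNoetherianByNilpotent
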