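import Pool.Agent.TH60.TB.Lamp
import Pool.Agent.TH60.TB.Short

/-!
# Short elements of infinite order in solvable groups: bounded for derived length three, unbounded
for derived length four

Partial result on MP_d69e80_al.  Lower bounds for the growth rate of solvable groups are obtained
from short elements of infinite order (and then from short pairs that generate a free semigroup).
Bartholdi and Cornulier found solvable groups with a fixed number of generators and arbitrarily
large balls of torsion elements, but with unbounded derived length.  Here the question is settled
for bounded derived length: length `4` always suffices for derived length at most three, and no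
length suffices for derived length four.

Idea of (1): modulo the torsion of `G'/G''` the generators commute, if all `[s, s']` are torsion; so
`G'/G''` and `G/G'` are finite, and `G''` is abelian of finite index.

Idea of (2).  Let `P` be generated by involutions `x_0, ..., x_{n-1}` and put a copy of the
pair `(c_j, c_j + R!)` in the `j`-th of `n` long intervals of a finite cyclic group `C`.  Let `a` be
the element of the base group of `P ≀ C` with coordinates `x_j` at the two points of the `j`-th
interval and `1` elsewhere, and let `t` generate `C`.  A word of length at most `R` in `a`, `t` is
`f t ^ m` where `f` takes values in the powers of `x_j` on the `j`-th interval.  If `m ≠ 0` then `m`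
divides `R!`, and so `f = h · (shift of h by m)⁻¹` for a function `h` with the same property.  Hence
the word is conjugate to `t ^ m`, and has finite order; if `m = 0` its square is trivial.
-/

set_option autoImplicit false

namespace Pool.Agent.Results.MP_d69e80_al.TorsionBalls

open scoped commutatorElement

universe u

/-- (1) Let `G` be a group of derived length at most three that is not virtually nilpotent.  In
every finite generating set `S` of `G` there is an element `s` of infinite order, or there are two
elements `s, s'` whose commutator has infinite order; so an element of infinite order of word length
at most `4`.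
(2) For every `R` there is a group of derived length at most four that is not virtually nilpotent,
generated by two elements, in which all elements of word length at most `R` have finite order. -/
theorem result :
    (∀ (G : Type u) [Group G] (S : Set G), S.Finite → Subgroup.closure S = ⊤ →
      derivedSeries G 3 = ⊥ → (¬ ∃ N : Subgroup G, N.FiniteIndex ∧ Group.IsNilpotent N) →
      (∃ s ∈ S, ¬ IsOfFinOrder s) ∨ ∃ s ∈ S, ∃ s' ∈ S, ¬ IsOfFinOrder ⁅s, s'⁆) ∧
    (∀ R : ℕ, ∃ (G : Type) (_ : Group G) (a t : G),
      Subgroup.closure {a, t} = ⊤ ∧ derivedSeries G 4 = ⊥ ∧
      (¬ ∃ N : Subgroup G, N.FiniteIndex ∧ Group.IsNilpotent N) ∧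
      ∀ l : List G, l.length ≤ R → (∀ y ∈ l, y = a ∨ y = a⁻¹ ∨ y = t ∨ y = t⁻¹) →
        IsOfFinOrder l.prod) := by
  refine ⟨?_, TH60.TB.lamp_family⟩
  intro G _ S hfin hgen h3 h4
  by_contra hcon
  push Not at hcon
  obtain ⟨h1, h2⟩ := hcon
  refine h4 ⟨derivedSeries G 2, TH60.TB.short S hfin hgen h1 h2, ?_⟩
  rw [derivedSeries_succ, Subgroup.commutator_eq_bot_iff_le_centralizer] at h3
  let _ : CommGroup (derivedSeries G 2) :=
    { (inferInstance : Group (derivedSeries G 2)) with
      mul_comm := fun a b => Subtype.ext ((h3 b.2) a a.2) }
  exact CommGroup.isNilpotent

end Pool.Agent.Results.MP_d69e80_al.TorsionBalls
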